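import Pool.Agent.UL4.Stmts

/-!
Squad UL4 (MP_c7c9bf_co), row TRN: translation.
-/

set_option autoImplicit false

namespace Pool.Agent.UL4.H27

open MeasureTheory Set Pool.Agent.UL3

theorem int_tr (K : Set E3) (c : E3) :
    interior ((fun x => x + c) '' K) = (fun x => x + c) '' interior K :=
  ((Homeomorph.addRight c).image_interior K).symm

theorem vol_tr (K : Set E3) (c : E3) : V ((fun x => x + c) '' K) = V K := by
  unfold V Measure.real
  rw [Set.image_add_right, measure_preimage_add_right]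

theorem cb_tr {K : Set E3} (h : CB K) (c : E3) : CB ((fun x => x + c) '' K) where
  cpt := h.cpt.image (by fun_prop)
  cvx := by
    have h1 := h.cvx.translate c
    rwa [show (fun x => x + c) = fun x => c + x from funext fun x => add_comm _ _]
  int := by
    rw [int_tr]
    exact h.int.image _

theorem good_tr {K : Set E3} {c : E3} (h : Good2 ((fun x => x + c) '' K)) : Good2 K := by
  obtain ⟨v, z, h1, h2, h3, h4⟩ := h
  refine ⟨v, z - c, h1, fun n hn => ?_, fun n hn => ?_, ?_⟩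
  · have h5 := h2 n hn
    rw [int_tr] at h5
    rw [Set.disjoint_left] at h5 ⊢
    rintro x hx ⟨y, hy, hyx⟩
    refine h5 ⟨x, hx, rfl⟩ ⟨y + c, ⟨y, hy, rfl⟩, ?_⟩
    show y + c + _ = x + c
    rw [← hyx]
    show y + c + _ = y + _ + c
    rw [add_right_comm]
  · refine h3 n ?_
    rw [int_tr]
    exact ⟨_, hn, by show z - c + _ + c = _; rw [sub_add_eq_add_sub, sub_add_cancel]⟩
  · rwa [vol_tr] at h4

theorem trn : TrnStmt := by
  intro K hK
  have hne : K.Nonempty := hK.int.mono interior_subset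
  have hc : Continuous fun x : E3 => x 2 := by fun_prop
  obtain ⟨a, ha, ham⟩ := hK.cpt.exists_isMinOn hne hc.continuousOn
  obtain ⟨b, hb, hbM⟩ := hK.cpt.exists_isMaxOn hne hc.continuousOn
  have hlt : a 2 < b 2 := by
    obtain ⟨p, hp⟩ := hK.int
    rw [mem_interior_iff_mem_nhds] at hp
    have h1 : Continuous fun t : ℝ => p + t • EuclideanSpace.single (2 : Fin 3) (1 : ℝ) := by
      fun_prop
    have h2 : (fun t : ℝ => p + t • EuclideanSpace.single (2 : Fin 3) (1 : ℝ)) ⁻¹' K ∈
        nhds (0 : ℝ) := by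
      refine h1.continuousAt.preimage_mem_nhds ?_
      rw [zero_smul, add_zero]
      exact hp
    obtain ⟨ε, hε, hball⟩ := Metric.mem_nhds_iff.1 h2
    have h3 : (p + (ε / 2) • EuclideanSpace.single (2 : Fin 3) (1 : ℝ)) ∈ K := hball (by
      rw [Metric.mem_ball, dist_zero_right, Real.norm_eq_abs, abs_of_pos (by linarith)]
      linarith)
    have h4 : p ∈ K := mem_of_mem_nhds hp
    have h5 : a 2 ≤ p 2 := ham h4
    have h6 : (p + (ε / 2) • EuclideanSpace.single (2 : Fin 3) (1 : ℝ)) 2 ≤ b 2 := hbM h3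
    simp at h6
    linarith
  refine ⟨EuclideanSpace.single (2 : Fin 3) (-(a 2)), b 2 - a 2, cb_tr hK _,
    ⟨sub_pos.2 hlt, ?_, ?_, ?_⟩, good_tr⟩
  · rintro _ ⟨x, hx, rfl⟩
    have h1 : a 2 ≤ x 2 := ham hx
    have h2 : x 2 ≤ b 2 := hbM hx
    constructor <;> simp <;> linarith
  · exact ⟨_, ⟨a, ha, rfl⟩, by simp⟩
  · exact ⟨_, ⟨b, hb, rfl⟩, by simp; ring⟩

end Pool.Agent.UL4.H27
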